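import Pool.Agent.DFM.Stmts

/-!
# Squad DFM, row NEG: failure
-/

set_option autoImplicit false

namespace Pool.Agent.DFM.H44

/-- NEG -/
theorem neg (unb : UnbStmt) (ale : AleStmt) (dua : DuaStmt) : NegStmt := by
  intro κ μ h
  rw [not_or, not_or, not_or] at h
  obtain ⟨h1, h2, h3, h4⟩ := h
  rw [not_lt] at h1 h2
  rcases h1.lt_or_eq with hk | hk
  · rcases h2.lt_or_eq with hm | hm
    · exact ale κ μ hk hm
    · have hb : bNum ≤ κ := by
        rcases lt_or_ge κ bNum with h | h
        · exact absurd ⟨hm.symm, h⟩ h4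
        · exact h
      obtain ⟨L, iL, l1, l2, l3, l4, l5, l6⟩ := unb κ hb
      obtain ⟨d1, d2, d3, d4⟩ := dua L
      refine ⟨Lᵒᵈ, inferInstance, d1 l1, ?_, ?_, ?_, ?_, fun hh => l6 (d4 hh)⟩
      · intro x y
        have he : Set.Icc x y = OrderDual.ofDual ⁻¹' (Set.Icc (OrderDual.ofDual y) (OrderDual.ofDual x)) := by
          ext z
          constructor
          · intro hz
            exact ⟨hz.2, hz.1⟩
          · intro hz
            exact ⟨hz.2, hz.1⟩
        rw [he]
        exact (l2 _ _).preimage (OrderDual.ofDual.injective.injOn)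
      · rw [← l4]
        exact d2
      · rw [← hm, ← l3]
        exact d3
      · calc Cardinal.mk Lᵒᵈ = Cardinal.mk L := rfl
          _ ≤ κ := l5
          _ ≤ max κ μ := le_max_left _ _
  · have hb : bNum ≤ μ := by
      rcases lt_or_ge μ bNum with h | h
      · exact absurd ⟨hk.symm, h⟩ h3
      · exact h
    obtain ⟨L, iL, l1, l2, l3, l4, l5, l6⟩ := unb μ hb
    exact ⟨L, iL, l1, l2, l3.trans hk, l4, l5.trans (le_max_right _ _), l6⟩

end Pool.Agent.DFM.H44
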